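import Pool.Agent.Q138.MagHomEx

set_option autoImplicit false

/-!
# MP_65cbfa_co: extreme magnitude Betti numbers of indecomposable arrangements

The seven hyperplanes `x₀, x₁, x₂, x₃, x₄, x₀ + x₁, x₀ + x₂ + x₃ + x₄` in `ℝ⁵` form an
indecomposable arrangement of rank `r = 5` with `n = 7` for which `β_{0,0} < β_{r,n}`.
-/

namespace Pool.Agent.Results.MP_65cbfa_co.ExtremeBetti

open Q138.TopeMag Q138.MagHom

/-- There is an indecomposable arrangement of rank `r = 5 ≥ 2` with `n = 7` hyperplanes for which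
`β_{0,0} ≤ 128` and `β_{r,n} ≥ 168`, so that `β_{0,0} ≠ β_{r,n}`. -/
theorem result :
    ∃ A : Arrangement 5, ¬ Decomposable A ∧ A.rank = 5 ∧ A.size = 7 ∧
      betti A.topeGraph 0 0 ≤ 128 ∧ 168 ≤ betti A.topeGraph A.rank A.size ∧
      betti A.topeGraph 0 0 ≠ betti A.topeGraph A.rank A.size := by
  have h1 := betti_le
  have h2 := betti_ge
  refine ⟨arr, arr_indecomposable, arr_rank, arr_size, h1, ?_, ?_⟩
  · rw [arr_rank, arr_size]
    exact h2
  · rw [arr_rank, arr_size]
    omega

end Pool.Agent.Results.MP_65cbfa_co.ExtremeBetti
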